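import Mathlib

/-!
# Two step contraction in `L²(ℝ²)` for random transfer matrices
-/

set_option autoImplicit false

noncomputable section

namespace Pool.Agent.Q184.AH

open MeasureTheory Set Filter

/-- the shear `(a, b) ↦ (a, b - s a)` -/
def shear (s : ℝ) (w : ℝ × ℝ) : ℝ × ℝ := (w.1, w.2 - s * w.1)

/-- the rotation `(a, b) ↦ (-b, a)` -/
def rot (w : ℝ × ℝ) : ℝ × ℝ := (-w.2, w.1)

theorem mp_shear (s : ℝ) : MeasurePreserving (shear s) volume volume := by
  have h := (MeasurePreserving.id (volume : Measure ℝ)).skew_product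
    (g := fun a b : ℝ => b - s * a) (μc := (volume : Measure ℝ)) (μd := (volume : Measure ℝ))
    (by fun_prop) (Eventually.of_forall fun a => ?_)
  · exact h
  · exact (measurePreserving_sub_right volume (s * a)).map_eq

theorem mp_rot : MeasurePreserving rot volume volume := by
  have h1 : MeasurePreserving (Prod.swap : ℝ × ℝ → ℝ × ℝ) volume volume :=
    Measure.measurePreserving_swap
  have h2 : MeasurePreserving (Prod.map (fun x : ℝ => -x) (id : ℝ → ℝ)) (volume : Measure (ℝ × ℝ))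
      volume := (Measure.measurePreserving_neg (volume : Measure ℝ)).prod (MeasurePreserving.id _)
  have h3 := h2.comp h1
  exact h3

theorem shear_shear (s t : ℝ) (w : ℝ × ℝ) : shear s (shear t w) = shear (s + t) w := by
  unfold shear
  ext
  · rfl
  · simp only
    ring

/-- the integral of the square -/
def nn (g : ℝ × ℝ → ℝ) : ℝ := ∫ w, g w ^ 2

theorem nn_nonneg (g : ℝ × ℝ → ℝ) : 0 ≤ nn g := integral_nonneg fun w => sq_nonneg _

theorem memLp_shear {g : ℝ × ℝ → ℝ} (hg : MemLp g 2) (s : ℝ) :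
    MemLp (fun w => g (shear s w)) 2 := hg.comp_measurePreserving (mp_shear s)

theorem memLp_rot {g : ℝ × ℝ → ℝ} (hg : MemLp g 2) :
    MemLp (fun w => g (rot w)) 2 := hg.comp_measurePreserving mp_rot

/-- `shear s` as a measurable equivalence -/
def shearE (s : ℝ) : (ℝ × ℝ) ≃ᵐ (ℝ × ℝ) where
  toFun := shear s
  invFun := shear (-s)
  left_inv w := by rw [shear_shear]; simp [shear]
  right_inv w := by rw [shear_shear]; simp [shear]
  measurable_toFun := (mp_shear s).measurable
  measurable_invFun := (mp_shear (-s)).measurable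

theorem set_shear (g : ℝ × ℝ → ℝ) (s : ℝ) (V : Set (ℝ × ℝ)) :
    ∫ w in shear s ⁻¹' V, g (shear s w) ^ 2 = ∫ w in V, g w ^ 2 :=
  (mp_shear s).setIntegral_preimage_emb (shearE s).measurableEmbedding (fun w => g w ^ 2) V

/-- `rot` as a measurable equivalence -/
def rotE : (ℝ × ℝ) ≃ᵐ (ℝ × ℝ) where
  toFun := rot
  invFun w := (w.2, -w.1)
  left_inv w := by simp [rot]
  right_inv w := by simp [rot]
  measurable_toFun := mp_rot.measurable
  measurable_invFun := measurable_snd.prodMk measurable_fst.neg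

theorem set_rot (g : ℝ × ℝ → ℝ) (V : Set (ℝ × ℝ)) :
    ∫ w in rot ⁻¹' V, g (rot w) ^ 2 = ∫ w in V, g w ^ 2 :=
  mp_rot.setIntegral_preimage_emb rotE.measurableEmbedding (fun w => g w ^ 2) V

theorem nn_shear (g : ℝ × ℝ → ℝ) (s : ℝ) : nn (fun w => g (shear s w)) = nn g := by
  have := set_shear g s univ
  simpa [nn] using this

theorem nn_rot (g : ℝ × ℝ → ℝ) : nn (fun w => g (rot w)) = nn g := by
  have := set_rot g univ
  simpa [nn] using this

/-- the defect -/
def Df (s : ℝ) (g : ℝ × ℝ → ℝ) : ℝ := nn (fun w => g (shear s w) - g w)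

theorem Df_neg (s : ℝ) (g : ℝ × ℝ → ℝ) : Df (-s) g = Df s g := by
  unfold Df
  rw [← nn_shear (fun w => g (shear (-s) w) - g w) s]
  unfold nn
  refine integral_congr_ae (Eventually.of_forall fun w => ?_)
  simp only [shear_shear]
  have : shear (-s + s) w = w := by simp [shear]
  rw [this]
  ring

theorem Df_mul {g : ℝ × ℝ → ℝ} (hg : MemLp g 2) (s : ℝ) (n : ℕ) :
    Df (n * s) g ≤ n ^ 2 * Df s g := by
  have h1 : ∀ w, g (shear (n * s) w) - g w =
      ∑ i ∈ Finset.range n, (g (shear s (shear (i * s) w)) - g (shear (i * s) w)) := by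
    intro w
    have h2 : ∀ i : ℕ, g (shear s (shear (i * s) w)) = g (shear ((i + 1 : ℕ) * s) w) := by
      intro i
      rw [shear_shear]
      congr 2
      push_cast
      ring
    simp only [h2]
    rw [Finset.sum_range_sub (fun i : ℕ => g (shear (i * s) w))]
    congr 2
    simp [shear]
  have hi : ∀ i : ℕ, MemLp (fun w => g (shear s (shear (i * s) w)) - g (shear (i * s) w)) 2 := by
    intro i
    exact (memLp_shear (memLp_shear hg s) (i * s)).sub (memLp_shear hg (i * s))
  have h3 : Df (n * s) g ≤ ∫ w, (n : ℝ) * ∑ i ∈ Finset.range n,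
      (g (shear s (shear (i * s) w)) - g (shear (i * s) w)) ^ 2 := by
    unfold Df nn
    refine integral_mono_of_nonneg (Eventually.of_forall fun w => sq_nonneg _) ?_
      (Eventually.of_forall fun w => ?_)
    · exact (integrable_finsetSum _ fun i _ => (hi i).integrable_sq).const_mul _
    · simp only
      rw [h1 w]
      have := sq_sum_le_card_mul_sum_sq (s := Finset.range n)
        (f := fun i => g (shear s (shear (i * s) w)) - g (shear (i * s) w))
      simpa using this
  refine h3.trans (le_of_eq ?_)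
  rw [integral_const_mul, integral_finsetSum _ fun i _ => (hi i).integrable_sq]
  have h4 : ∀ i : ℕ, ∫ w, (g (shear s (shear (i * s) w)) - g (shear (i * s) w)) ^ 2 = Df s g :=
    fun i => nn_shear (fun w => g (shear s w) - g w) (i * s)
  simp only [h4, Finset.sum_const, Finset.card_range, nsmul_eq_mul]
  ring

/-- the cone `|b| ≤ H |a|`, `a ≠ 0` -/
def cone (H : ℝ) : Set (ℝ × ℝ) := {w | w.1 ≠ 0 ∧ |w.2| ≤ H * |w.1|}

theorem measurableSet_cone (H : ℝ) : MeasurableSet (cone H) := by
  refine MeasurableSet.inter ?_ ?_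
  · exact (measurableSet_singleton (0 : ℝ)).compl.preimage measurable_fst
  · exact measurableSet_le (continuous_abs.measurable.comp measurable_snd)
      (measurable_const.mul (continuous_abs.measurable.comp measurable_fst))

/-- **the cone lemma** -/
theorem cone_lemma {τ : ℝ} (hτ : τ ≠ 0) (H : ℝ) (hH : 0 ≤ H) {η : ℝ} (hη : 0 < η) :
    ∃ δ : ℝ, 0 < δ ∧ ∀ g : ℝ × ℝ → ℝ, MemLp g 2 → Df τ g ≤ δ * nn g →
      ∫ w in cone H, g w ^ 2 ≤ η * nn g := by
  obtain ⟨m, hm⟩ := exists_nat_gt ((2 * H) / |τ|)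
  have hτ' : 0 < |τ| := abs_pos.2 hτ
  rw [div_lt_iff₀ hτ'] at hm
  obtain ⟨K, hK⟩ := exists_nat_gt (4 / η)
  have hK0 : 0 < (K : ℝ) := lt_trans (by positivity) hK
  rw [div_lt_iff₀ hη] at hK
  refine ⟨η / (4 * ((K * m : ℕ) : ℝ) ^ 2 + 1), by positivity, fun g hg hD => ?_⟩
  set V : ℕ → Set (ℝ × ℝ) := fun j => shear ((j * m : ℕ) * τ) ⁻¹' cone H with hV
  have hVm : ∀ j, MeasurableSet (V j) := fun j =>
    (mp_shear _).measurable (measurableSet_cone H)
  have hdis : ∀ i j : ℕ, i ≠ j → Disjoint (V i) (V j) := by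
    intro i j hij
    rw [Set.disjoint_left]
    rintro ⟨a, b⟩ ⟨ha, hi⟩ ⟨-, hj⟩
    simp only [shear] at ha hi hj
    have ha' : 0 < |a| := abs_pos.2 ha
    have e1 : |(((j * m : ℕ) : ℝ) * τ - ((i * m : ℕ) : ℝ) * τ) * a| ≤ 2 * H * |a| := by
      have : (((j * m : ℕ) : ℝ) * τ - ((i * m : ℕ) : ℝ) * τ) * a =
        (b - ((i * m : ℕ) : ℝ) * τ * a) - (b - ((j * m : ℕ) : ℝ) * τ * a) := by ring
      rw [this]
      refine (abs_sub _ _).trans ?_
      linarith
    rw [abs_mul] at e1
    have e2 := le_of_mul_le_mul_right e1 ha'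
    have e3 : (((j * m : ℕ) : ℝ) * τ - ((i * m : ℕ) : ℝ) * τ) = ((j : ℝ) - i) * (m * τ) := by
      push_cast; ring
    rw [e3, abs_mul, abs_mul, Nat.abs_cast] at e2
    have e4 : (1 : ℝ) ≤ |(j : ℝ) - i| := by
      have : (1 : ℤ) ≤ |(j : ℤ) - i| := by
        apply Int.one_le_abs
        omega
      exact_mod_cast this
    nlinarith [hτ'.le]
  have hstep : ∀ j ∈ Finset.range K, ∫ w in cone H, g w ^ 2 ≤
      2 * (∫ w in V j, g w ^ 2) + 2 * ((K * m : ℕ) : ℝ) ^ 2 * Df τ g := by
    intro j hj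
    rw [Finset.mem_range] at hj
    set s : ℝ := ((j * m : ℕ) : ℝ) * τ with hs
    have hsh : MemLp (fun w => g (shear (-s) w)) 2 := memLp_shear hg (-s)
    have hdf : MemLp (fun w => g (shear (-s) w) - g w) 2 := hsh.sub hg
    have a1 : ∫ w in cone H, g w ^ 2 ≤ ∫ w in cone H,
        (2 * g (shear (-s) w) ^ 2 + 2 * (g (shear (-s) w) - g w) ^ 2) := by
      refine setIntegral_mono hg.integrable_sq.integrableOn
        ((hsh.integrable_sq.const_mul 2).add (hdf.integrable_sq.const_mul 2)).integrableOn ?_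
      intro w
      simp only
      nlinarith [sq_nonneg (2 * g (shear (-s) w) - g w)]
    rw [integral_add (hsh.integrable_sq.const_mul 2).integrableOn
      (hdf.integrable_sq.const_mul 2).integrableOn, integral_const_mul, integral_const_mul] at a1
    have a2 : ∫ w in cone H, g (shear (-s) w) ^ 2 = ∫ w in V j, g w ^ 2 := by
      rw [← set_shear g (-s) (V j)]
      congr 2
      ext w
      simp only [hV, mem_preimage, shear_shear]
      rw [← hs]
      have : shear (s + -s) w = w := by simp [shear]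
      rw [this]
    have a3 : ∫ w in cone H, (g (shear (-s) w) - g w) ^ 2 ≤ Df s g := by
      rw [← Df_neg]
      exact setIntegral_le_integral hdf.integrable_sq (Eventually.of_forall fun w => sq_nonneg _)
    have a4 : Df s g ≤ ((K * m : ℕ) : ℝ) ^ 2 * Df τ g := by
      refine (Df_mul hg τ (j * m)).trans ?_
      have : ((j * m : ℕ) : ℝ) ≤ ((K * m : ℕ) : ℝ) := by
        exact_mod_cast Nat.mul_le_mul_right m hj.le
      gcongr
      exact nn_nonneg _
    rw [a2] at a1
    linarith
  have hsum : ∑ j ∈ Finset.range K, ∫ w in V j, g w ^ 2 ≤ nn g := by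
    rw [← integral_biUnion_finset _ (fun j _ => hVm j) (fun i _ j _ hij => hdis i j hij)
      (fun j _ => hg.integrable_sq.integrableOn)]
    exact setIntegral_le_integral hg.integrable_sq (Eventually.of_forall fun w => sq_nonneg _)
  have hall := Finset.sum_le_sum hstep
  rw [Finset.sum_const, Finset.card_range, nsmul_eq_mul, Finset.sum_add_distrib,
    ← Finset.mul_sum, Finset.sum_const, Finset.card_range, nsmul_eq_mul] at hall
  have hn := nn_nonneg g
  have hDD : 2 * ((K * m : ℕ) : ℝ) ^ 2 * Df τ g ≤ η / 2 * nn g := by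
    have b1 : 2 * ((K * m : ℕ) : ℝ) ^ 2 * Df τ g ≤
        2 * ((K * m : ℕ) : ℝ) ^ 2 * (η / (4 * ((K * m : ℕ) : ℝ) ^ 2 + 1) * nn g) := by
      gcongr
    refine b1.trans ?_
    have b2 : 2 * ((K * m : ℕ) : ℝ) ^ 2 * (η / (4 * ((K * m : ℕ) : ℝ) ^ 2 + 1)) ≤ η / 2 := by
      rw [mul_div_assoc', div_le_iff₀ (by positivity)]
      nlinarith
    calc _ = (2 * ((K * m : ℕ) : ℝ) ^ 2 * (η / (4 * ((K * m : ℕ) : ℝ) ^ 2 + 1))) * nn g := by ring
      _ ≤ _ := by gcongr
  have c1 : (K : ℝ) * ∫ w in cone H, g w ^ 2 ≤ 2 * nn g + K * (η / 2 * nn g) := by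
    refine hall.trans ?_
    have : (K : ℝ) * (2 * ((K * m : ℕ) : ℝ) ^ 2 * Df τ g) ≤ K * (η / 2 * nn g) := by
      gcongr
    linarith
  have c2 : 2 * nn g ≤ K * (η / 2 * nn g) := by nlinarith
  have c3 : (K : ℝ) * ∫ w in cone H, g w ^ 2 ≤ K * (η * nn g) := by
    calc _ ≤ K * (η / 2 * nn g) + K * (η / 2 * nn g) := by linarith
      _ = _ := by ring
  exact le_of_mul_le_mul_left c3 hK0

end Pool.Agent.Q184.AH
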