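import Pool.Agent.Q184.AH.Cone

/-!
# Two step contraction in `L²(ℝ²)`: the contraction
-/

set_option autoImplicit false

noncomputable section

namespace Pool.Agent.Q184.AH

open MeasureTheory Set Filter

/-- average over the two steps -/
def TT (t u : ℝ) (g : ℝ × ℝ → ℝ) (w : ℝ × ℝ) : ℝ := (g (rot (shear t w)) + g (rot (shear u w))) / 2

theorem memLp_TT {g : ℝ × ℝ → ℝ} (hg : MemLp g 2) (t u : ℝ) : MemLp (TT t u g) 2 := by
  have h := ((memLp_shear (memLp_rot hg) t).add (memLp_shear (memLp_rot hg) u)).mul_const (1 / 2)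
  refine h.ae_eq (Eventually.of_forall fun w => ?_)
  simp only [TT, Pi.add_apply]
  ring

theorem nn_TT {g : ℝ × ℝ → ℝ} (hg : MemLp g 2) (t u : ℝ) :
    nn (TT t u g) = nn g - 1 / 4 * Df (u - t) (fun w => g (rot w)) := by
  set G : ℝ × ℝ → ℝ := fun w => g (rot w) with hG
  have hGm : MemLp G 2 := memLp_rot hg
  have ht := memLp_shear hGm t
  have hu := memLp_shear hGm u
  have hd : MemLp (fun w => G (shear u w) - G (shear t w)) 2 := hu.sub ht
  have e1 : nn (TT t u g) = ∫ w, ((1 / 2) * G (shear t w) ^ 2 + (1 / 2) * G (shear u w) ^ 2 -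
      (1 / 4) * (G (shear u w) - G (shear t w)) ^ 2) := by
    unfold nn
    refine integral_congr_ae (Eventually.of_forall fun w => ?_)
    simp only [TT, hG]
    ring
  have i1 : Integrable (fun w => (1 / 2) * G (shear t w) ^ 2) := ht.integrable_sq.const_mul _
  have i2 : Integrable (fun w => (1 / 2) * G (shear u w) ^ 2) := hu.integrable_sq.const_mul _
  have i3 : Integrable (fun w => (1 / 2) * G (shear t w) ^ 2 + (1 / 2) * G (shear u w) ^ 2) :=
    i1.add i2
  have i4 : Integrable (fun w => (1 / 4) * (G (shear u w) - G (shear t w)) ^ 2) :=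
    hd.integrable_sq.const_mul _
  rw [e1, integral_sub i3 i4, integral_add i1 i2, integral_const_mul, integral_const_mul,
    integral_const_mul]
  have e2 : ∫ w, G (shear t w) ^ 2 = nn g := by
    have := nn_shear G t
    have h2 := nn_rot g
    unfold nn at this h2
    rw [this]
    exact h2
  have e3 : ∫ w, G (shear u w) ^ 2 = nn g := by
    have := nn_shear G u
    have h2 := nn_rot g
    unfold nn at this h2
    rw [this]
    exact h2
  have e4 : ∫ w, (G (shear u w) - G (shear t w)) ^ 2 = Df (u - t) G := by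
    unfold Df
    rw [← nn_shear (fun w => G (shear (u - t) w) - G w) t]
    unfold nn
    simp only [shear_shear, sub_add_cancel]
  rw [e2, e3, e4]
  ring

theorem TT_sq_le (t u : ℝ) (g : ℝ × ℝ → ℝ) (w : ℝ × ℝ) :
    TT t u g w ^ 2 ≤ (1 / 2) * g (rot (shear t w)) ^ 2 + (1 / 2) * g (rot (shear u w)) ^ 2 := by
  unfold TT
  nlinarith [sq_nonneg (g (rot (shear t w)) - g (rot (shear u w)))]

theorem cone_shear {H t : ℝ} (ht : |t| ≤ H) : cone 1 ⊆ shear t ⁻¹' cone (1 + H) := by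
  rintro ⟨a, b⟩ ⟨ha, hb⟩
  refine ⟨ha, ?_⟩
  simp only [shear] at *
  refine (abs_sub _ _).trans ?_
  rw [abs_mul]
  have : |t| * |a| ≤ H * |a| := by gcongr
  linarith

theorem rot_cone : (rot ⁻¹' (cone 1)ᶜ : Set (ℝ × ℝ)) ≤ᵐ[volume] cone 1 := by
  have h0 : ∀ᵐ w : ℝ × ℝ, w ≠ 0 := by
    rw [ae_iff]
    simp
  filter_upwards [h0] with w hw h
  obtain ⟨a, b⟩ := w
  have h' : ¬ ((rot (a, b)).1 ≠ 0 ∧ |(rot (a, b)).2| ≤ 1 * |(rot (a, b)).1|) := h
  simp only [rot, one_mul, abs_neg, neg_ne_zero, not_and, not_le] at h'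
  show a ≠ 0 ∧ |b| ≤ 1 * |a|
  rw [one_mul]
  by_cases hb : b = 0
  · subst hb
    refine ⟨fun ha => hw (by rw [ha]; rfl), by simp⟩
  · have := h' hb
    exact ⟨fun ha => by rw [ha, abs_zero] at this; exact absurd this (not_lt.2 (abs_nonneg _)),
      this.le⟩

/-- **two step contraction** -/
theorem contraction {τ : ℝ} (hτ : τ ≠ 0) (H : ℝ) (hH : 0 ≤ H) :
    ∃ c : ℝ, 0 < c ∧ c < 1 ∧ ∀ t u : ℝ, u - t = τ → |t| ≤ H → |u| ≤ H →
      ∀ g : ℝ × ℝ → ℝ, MemLp g 2 → nn (TT t u (TT t u g)) ≤ (1 - c) * nn g := by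
  obtain ⟨δ₁, hδ₁, h1⟩ := cone_lemma hτ (1 + H) (by positivity) (η := 1 / 4) (by norm_num)
  obtain ⟨δ₂, hδ₂, h2⟩ := cone_lemma hτ 1 (by norm_num) (η := 1 / 4) (by norm_num)
  set c : ℝ := min (min δ₁ δ₂) 1 / 8 with hc
  have c0 : 0 < c := by positivity
  have c1 : 8 * c ≤ δ₁ := by
    rw [hc]
    have := (min_le_left (min δ₁ δ₂) 1).trans (min_le_left δ₁ δ₂)
    linarith
  have c2 : 8 * c ≤ δ₂ := by
    rw [hc]
    have := (min_le_left (min δ₁ δ₂) 1).trans (min_le_right δ₁ δ₂)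
    linarith
  have c3 : 8 * c ≤ 1 := by
    rw [hc]
    have := (min_le_right (min δ₁ δ₂) 1)
    linarith
  refine ⟨c, c0, by linarith, fun t u htu ht hu g hg => ?_⟩
  by_contra hcon
  push Not at hcon
  set G₁ : ℝ × ℝ → ℝ := fun w => g (rot w) with hG₁
  set g' := TT t u g with hg'
  set G₂ : ℝ × ℝ → ℝ := fun w => g' (rot w) with hG₂
  have hgm' : MemLp g' 2 := memLp_TT hg t u
  have hG₁m : MemLp G₁ 2 := memLp_rot hg
  have hG₂m : MemLp G₂ 2 := memLp_rot hgm'
  have n1 : nn g' = nn g - 1 / 4 * Df τ G₁ := by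
    rw [hg', nn_TT hg, htu]
  have n2 : nn (TT t u g') = nn g' - 1 / 4 * Df τ G₂ := by
    rw [nn_TT hgm', htu]
  have d1 : 0 ≤ Df τ G₁ := nn_nonneg _
  have d2 : 0 ≤ Df τ G₂ := nn_nonneg _
  have m1 : nn G₁ = nn g := nn_rot g
  have m2 : nn G₂ = nn g' := nn_rot g'
  have hn := nn_nonneg g
  have k1 : Df τ G₁ ≤ δ₁ * nn G₁ := by
    rw [m1]; nlinarith
  have k3 : (1 / 2) * nn g ≤ nn g' := by nlinarith
  have k2 : Df τ G₂ ≤ δ₂ * nn G₂ := by
    rw [m2]; nlinarith
  have r1 := h1 G₁ hG₁m k1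
  have r2 := h2 G₂ hG₂m k2
  -- the cone part of `g'`
  have s1 : ∫ w in cone 1, g' w ^ 2 ≤ ∫ w in cone (1 + H), G₁ w ^ 2 := by
    have hst : ∀ s : ℝ, |s| ≤ H → ∫ w in cone 1, G₁ (shear s w) ^ 2 ≤
        ∫ w in cone (1 + H), G₁ w ^ 2 := by
      intro s hs
      rw [← set_shear G₁ s (cone (1 + H))]
      exact setIntegral_mono_set (memLp_shear hG₁m s).integrable_sq.integrableOn
        (Eventually.of_forall fun w => sq_nonneg _) (cone_shear hs).eventuallyLE
    have i1 := (memLp_shear hG₁m t).integrable_sq.const_mul (1 / 2)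
    have i2 := (memLp_shear hG₁m u).integrable_sq.const_mul (1 / 2)
    have : ∫ w in cone 1, g' w ^ 2 ≤ ∫ w in cone 1,
        ((1 / 2) * G₁ (shear t w) ^ 2 + (1 / 2) * G₁ (shear u w) ^ 2) :=
      setIntegral_mono hgm'.integrable_sq.integrableOn (i1.add i2).integrableOn
        (fun w => TT_sq_le t u g w)
    rw [integral_add i1.integrableOn i2.integrableOn, integral_const_mul, integral_const_mul] at this
    have := hst t ht
    have := hst u hu
    linarith
  have s2 : ∫ w in (cone 1)ᶜ, g' w ^ 2 ≤ ∫ w in cone 1, G₂ w ^ 2 := by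
    rw [← set_rot g' (cone 1)ᶜ]
    exact setIntegral_mono_set hG₂m.integrable_sq.integrableOn
      (Eventually.of_forall fun w => sq_nonneg _) rot_cone
  have s4 : nn g' = (∫ w in cone 1, g' w ^ 2) + ∫ w in (cone 1)ᶜ, g' w ^ 2 :=
    (integral_add_compl (measurableSet_cone 1) hgm'.integrable_sq).symm
  rw [m1] at r1
  rw [m2] at r2
  nlinarith

end Pool.Agent.Q184.AH
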