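import Pool.Agent.Q184.AH.Contr
import Pool.Agent.Q234.AH.Stm

/-!
# GROW: most words give a large transfer matrix, at every energy
-/

set_option autoImplicit false

noncomputable section

namespace Pool.Agent.Q184.AH

open MeasureTheory Set Filter Pool.Agent.Q234.AH

/-- the action of a matrix on the plane -/
def act (A : Matrix (Fin 2) (Fin 2) ℝ) (w : ℝ × ℝ) : ℝ × ℝ :=
  (A 0 0 * w.1 + A 0 1 * w.2, A 1 0 * w.1 + A 1 1 * w.2)

theorem act_mul (A B : Matrix (Fin 2) (Fin 2) ℝ) (w : ℝ × ℝ) :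
    act (A * B) w = act A (act B w) := by
  unfold act
  simp only [Matrix.mul_apply, Fin.sum_univ_two]
  ext
  · simp only; ring
  · simp only; ring

theorem act_step (t : ℝ) (w : ℝ × ℝ) : act !![t, -1; 1, 0] w = rot (shear t w) := by
  unfold act rot shear
  ext
  · simp [sub_eq_add_neg]
  · simp

theorem tprod_nil (e : ℝ) : Pool.Agent.Q234.AH.tprod e [] = 1 := rfl

theorem tprod_cons (e v : ℝ) (l : List ℝ) : Pool.Agent.Q234.AH.tprod e (v :: l) =
    Pool.Agent.Q234.AH.tprod e l * !![v - e, -1; 1, 0] := rfl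

/-- the square -/
def sq (r : ℝ) : Set (ℝ × ℝ) := Icc (-r) r ×ˢ Icc (-r) r

theorem measurableSet_sq (r : ℝ) : MeasurableSet (sq r) := measurableSet_Icc.prod measurableSet_Icc

theorem volume_sq {r : ℝ} (hr : 0 ≤ r) : volume.real (sq r) = (2 * r) ^ 2 := by
  unfold sq
  rw [Measure.volume_eq_prod, measureReal_prod_prod, Real.volume_real_Icc_of_le (by linarith)]
  ring

/-- iterates -/
def FF (p q e : ℝ) : ℕ → ℝ × ℝ → ℝ
  | 0 => (sq 1).indicator 1
  | k + 1 => TT (p - e) (q - e) (FF p q e k)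

theorem memLp_FF (p q e : ℝ) (k : ℕ) : MemLp (FF p q e k) 2 := by
  induction k with
  | zero =>
    refine memLp_indicator_const 2 (measurableSet_sq 1) 1 (Or.inr ?_)
    have : IsCompact (sq 1) := isCompact_Icc.prod isCompact_Icc
    exact this.measure_lt_top.ne
  | succ k ih => exact memLp_TT ih _ _

theorem nn_FF_zero (p q e : ℝ) : nn (FF p q e 0) = 4 := by
  have : ∀ w, FF p q e 0 w ^ 2 = (sq 1).indicator 1 w := by
    intro w
    show ((sq 1).indicator (1 : ℝ × ℝ → ℝ) w) ^ 2 = _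
    by_cases hw : w ∈ sq 1
    · simp [hw]
    · simp [hw]
  unfold nn
  simp only [this]
  rw [integral_indicator_one (measurableSet_sq 1), volume_sq (by norm_num)]
  norm_num

theorem wd_cons (p q : ℝ) {k : ℕ} (x : Bool) (b : Fin k → Bool) :
    wd p q (Fin.cons x b : Fin (k + 1) → Bool) = (if x then p else q) :: wd p q b := by
  unfold wd
  rw [List.ofFn_succ]
  simp

theorem FF_formula (p q e : ℝ) (k : ℕ) (w : ℝ × ℝ) :
    2 ^ k * FF p q e k w =
      ∑ b : Fin k → Bool, (sq 1).indicator (1 : ℝ × ℝ → ℝ) (act (tprod e (wd p q b)) w) := by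
  induction k generalizing w with
  | zero =>
    simp only [pow_zero, one_mul, Finset.univ_unique, Finset.sum_singleton]
    show (sq 1).indicator (1 : ℝ × ℝ → ℝ) w = _
    congr 1
    simp [wd, tprod_nil, act]
  | succ k ih =>
    rw [← (Fin.consEquiv (fun _ : Fin (k + 1) => Bool)).sum_comp, Fintype.sum_prod_type]
    simp only [Fintype.sum_bool]
    have hc : ∀ (x : Bool) (b : Fin k → Bool),
        (Fin.consEquiv (fun _ : Fin (k + 1) => Bool)) (x, b) = (Fin.cons x b : Fin (k + 1) → Bool) :=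
      fun _ _ => rfl
    simp only [hc, wd_cons, tprod_cons, act_mul, act_step, if_true]
    rw [← ih, pow_succ]
    have h2 : ∑ b : Fin k → Bool, (sq 1).indicator (1 : ℝ × ℝ → ℝ)
        (act (tprod e (wd p q b)) (rot (shear ((if false = true then p else q) - e) w))) =
        2 ^ k * FF p q e k (rot (shear (q - e) w)) := by
      rw [ih]
      simp
    rw [h2]
    show 2 ^ k * 2 * TT (p - e) (q - e) (FF p q e k) w = _
    unfold TT
    ring

theorem det_tprod (e : ℝ) (l : List ℝ) : (tprod e l).det = 1 := by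
  induction l with
  | nil => simp [tprod_nil]
  | cons v l ih =>
    rw [tprod_cons, Matrix.det_mul, ih, Matrix.det_fin_two_of]
    ring

theorem two_le_hs (e : ℝ) (l : List ℝ) : 2 ≤ hs (tprod e l) := by
  have h := det_tprod e l
  rw [Matrix.det_fin_two] at h
  unfold hs
  simp only [Fin.sum_univ_two]
  nlinarith [sq_nonneg (tprod e l 0 0 - tprod e l 1 1), sq_nonneg (tprod e l 0 1 + tprod e l 1 0)]

theorem act_mem {A : Matrix (Fin 2) (Fin 2) ℝ} {R : ℝ} (hR : 0 < R) (hA : hs A ≤ R ^ 2)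
    {w : ℝ × ℝ} (hw : w ∈ sq (1 / (2 * R))) : act A w ∈ sq 1 := by
  obtain ⟨a, b⟩ := w
  obtain ⟨h1, h2⟩ := hw
  have ha : |a| ≤ 1 / (2 * R) := abs_le.2 ⟨h1.1, h1.2⟩
  have hb : |b| ≤ 1 / (2 * R) := abs_le.2 ⟨h2.1, h2.2⟩
  have ha2 : a ^ 2 ≤ 1 / (4 * R ^ 2) := by
    rw [← sq_abs]
    calc |a| ^ 2 ≤ (1 / (2 * R)) ^ 2 := by gcongr
      _ = _ := by rw [div_pow]; ring
  have hb2 : b ^ 2 ≤ 1 / (4 * R ^ 2) := by
    rw [← sq_abs]
    calc |b| ^ 2 ≤ (1 / (2 * R)) ^ 2 := by gcongr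
      _ = _ := by rw [div_pow]; ring
  unfold hs at hA
  simp only [Fin.sum_univ_two] at hA
  have key : ∀ x y : ℝ, x ^ 2 + y ^ 2 ≤ R ^ 2 → |x * a + y * b| ≤ 1 := by
    intro x y hxy
    rw [← sq_le_one_iff_abs_le_one]
    have c1 : (x * a + y * b) ^ 2 ≤ (x ^ 2 + y ^ 2) * (a ^ 2 + b ^ 2) := by
      nlinarith [sq_nonneg (x * b - y * a)]
    have c2 : (x ^ 2 + y ^ 2) * (a ^ 2 + b ^ 2) ≤ R ^ 2 * (1 / (4 * R ^ 2) + 1 / (4 * R ^ 2)) := by
      gcongr
    have c3 : R ^ 2 * (1 / (4 * R ^ 2) + 1 / (4 * R ^ 2)) = 1 / 2 := by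
      field_simp
      norm_num
    linarith
  have k1 := abs_le.1 (key (A 0 0) (A 0 1) (by nlinarith [sq_nonneg (A 1 0), sq_nonneg (A 1 1)]))
  have k2 := abs_le.1 (key (A 1 0) (A 1 1) (by nlinarith [sq_nonneg (A 0 0), sq_nonneg (A 0 1)]))
  exact ⟨k1, k2⟩

theorem nn_FF_le {p q e c : ℝ} (hc : c ≤ 1)
    (h : ∀ g : ℝ × ℝ → ℝ, MemLp g 2 →
      nn (TT (p - e) (q - e) (TT (p - e) (q - e) g)) ≤ (1 - c) * nn g) (k : ℕ) :
    nn (FF p q e k) ≤ 4 * (1 - c) ^ (k / 2) := by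
  have h2 : ∀ j, nn (FF p q e (2 * j)) ≤ 4 * (1 - c) ^ j := by
    intro j
    induction j with
    | zero => simp [nn_FF_zero]
    | succ j ih =>
      have := h (FF p q e (2 * j)) (memLp_FF p q e (2 * j))
      calc nn (FF p q e (2 * (j + 1))) ≤ (1 - c) * nn (FF p q e (2 * j)) := this
        _ ≤ (1 - c) * (4 * (1 - c) ^ j) := by gcongr
        _ = _ := by ring
  have h3 : ∀ j, nn (FF p q e (j + 1)) ≤ nn (FF p q e j) := by
    intro j
    have := nn_TT (memLp_FF p q e j) (p - e) (q - e)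
    have h4 : 0 ≤ Df (q - e - (p - e)) (fun w => FF p q e j (rot w)) := nn_nonneg _
    show nn (TT (p - e) (q - e) (FF p q e j)) ≤ _
    linarith
  rcases Nat.even_or_odd' k with ⟨j, rfl | rfl⟩
  · have : 2 * j / 2 = j := by omega
    rw [this]
    exact h2 j
  · have : (2 * j + 1) / 2 = j := by omega
    rw [this]
    exact (h3 _).trans (h2 j)

theorem grow : S_grow := by
  intro p q M hpq
  obtain ⟨c, c0, c1, hcon⟩ := contraction (τ := q - p) (sub_ne_zero.2 hpq.symm)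
    (|p| + |q| + |M|) (by positivity)
  obtain ⟨ρ, hρ0, hρ4⟩ : ∃ ρ : ℝ, 0 < ρ ∧ ρ ^ 4 = 1 - c := by
    refine ⟨(1 - c) ^ ((1 : ℝ) / 4), Real.rpow_pos_of_pos (by linarith) _, ?_⟩
    rw [← Real.rpow_natCast, ← Real.rpow_mul (by linarith)]
    norm_num
  have hρ1 : ρ < 1 := by
    by_contra h
    push Not at h
    have : 1 ≤ ρ ^ 4 := one_le_pow₀ h
    linarith
  refine ⟨2 / ρ, ρ, by positivity, hρ0, hρ1, fun e he ℓ R hR => ?_⟩
  have hM : |e| ≤ |M| := he.trans (le_abs_self M)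
  have hF := nn_FF_le (p := p) (q := q) (e := e) c1.le (fun g hg => by
    refine hcon (p - e) (q - e) (by ring) ?_ ?_ g hg
    · have := abs_sub p e
      have := abs_nonneg q
      linarith
    · have := abs_sub q e
      have := abs_nonneg p
      linarith) ℓ
  set S := Finset.univ.filter fun b : Fin ℓ → Bool => hs (tprod e (wd p q b)) ≤ R ^ 2 with hS
  by_cases hR2 : R ^ 2 < 2
  · have : S = ∅ := by
      rw [hS, Finset.filter_eq_empty_iff]
      intro b _ hb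
      have := two_le_hs e (wd p q b)
      linarith
    rw [this]
    simp only [Finset.card_empty, Nat.cast_zero]
    positivity
  push Not at hR2
  have hR1 : 1 ≤ R := by nlinarith
  set N : ℝ := (S.card : ℝ) with hN
  have hN0 : 0 ≤ N := Nat.cast_nonneg _
  set r : ℝ := 1 / (2 * R) with hr
  have hr0 : 0 ≤ r := by positivity
  -- pointwise lower bound on the small square
  have hpt : ∀ w ∈ sq r, N / 2 ^ ℓ ≤ FF p q e ℓ w := by
    intro w hw
    rw [div_le_iff₀ (by positivity), mul_comm, FF_formula]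
    calc N = ∑ b ∈ S, (1 : ℝ) := by simp [hN]
      _ ≤ ∑ b ∈ S, (sq 1).indicator (1 : ℝ × ℝ → ℝ) (act (tprod e (wd p q b)) w) := by
          refine Finset.sum_le_sum fun b hb => ?_
          rw [hS, Finset.mem_filter] at hb
          rw [indicator_of_mem (act_mem hR hb.2 hw)]
          simp
      _ ≤ _ := Finset.sum_le_sum_of_subset_of_nonneg (Finset.subset_univ _) fun b _ _ =>
          indicator_nonneg (fun _ _ => zero_le_one) _
  have hlow : (2 * r) ^ 2 * (N / 2 ^ ℓ) ^ 2 ≤ nn (FF p q e ℓ) := by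
    calc (2 * r) ^ 2 * (N / 2 ^ ℓ) ^ 2 = ∫ _ in sq r, (N / 2 ^ ℓ) ^ 2 := by
          rw [setIntegral_const, volume_sq hr0, smul_eq_mul]
      _ ≤ ∫ w in sq r, FF p q e ℓ w ^ 2 := by
          refine setIntegral_mono_on ?_ (memLp_FF p q e ℓ).integrable_sq.integrableOn
            (measurableSet_sq r) fun w hw => ?_
          · refine integrableOn_const ?_
            have : IsCompact (sq r) := isCompact_Icc.prod isCompact_Icc
            exact this.measure_lt_top.ne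
          · have := hpt w hw
            have : 0 ≤ N / 2 ^ ℓ := by positivity
            gcongr
      _ ≤ nn (FF p q e ℓ) := setIntegral_le_integral (memLp_FF p q e ℓ).integrable_sq
          (Eventually.of_forall fun w => sq_nonneg _)
  have h2r : (2 * r) ^ 2 = 1 / R ^ 2 := by
    rw [hr]
    field_simp
  rw [h2r] at hlow
  have h4 : (N / 2 ^ ℓ) ^ 2 ≤ R ^ 2 * (4 * (1 - c) ^ (ℓ / 2)) := by
    have := hlow.trans hF
    rw [one_div, inv_mul_le_iff₀ (by positivity)] at this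
    exact this
  have h5 : (ρ * (N / 2 ^ ℓ)) ^ 2 ≤ (2 * R * ρ ^ ℓ) ^ 2 := by
    have h6 : ρ ^ 2 * (1 - c) ^ (ℓ / 2) ≤ ρ ^ (2 * ℓ) := by
      rw [← hρ4, ← pow_mul, ← pow_add]
      refine pow_le_pow_of_le_one hρ0.le hρ1.le ?_
      omega
    calc (ρ * (N / 2 ^ ℓ)) ^ 2 = ρ ^ 2 * (N / 2 ^ ℓ) ^ 2 := by ring
      _ ≤ ρ ^ 2 * (R ^ 2 * (4 * (1 - c) ^ (ℓ / 2))) := by gcongr
      _ = 4 * R ^ 2 * (ρ ^ 2 * (1 - c) ^ (ℓ / 2)) := by ring
      _ ≤ 4 * R ^ 2 * ρ ^ (2 * ℓ) := by gcongr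
      _ = _ := by ring
  have h7 : ρ * (N / 2 ^ ℓ) ≤ 2 * R * ρ ^ ℓ :=
    (pow_le_pow_iff_left₀ (by positivity) (by positivity) two_ne_zero).1 h5
  have h8 : N ≤ 2 / ρ * R * ρ ^ ℓ * 2 ^ ℓ := by
    have : N = (ρ * (N / 2 ^ ℓ)) * (2 ^ ℓ / ρ) := by field_simp
    rw [this]
    calc (ρ * (N / 2 ^ ℓ)) * (2 ^ ℓ / ρ) ≤ (2 * R * ρ ^ ℓ) * (2 ^ ℓ / ρ) := by gcongr
      _ = _ := by ring
  refine h8.trans ?_
  have : R ≤ R ^ 2 := by nlinarith
  gcongr

end Pool.Agent.Q184.AH
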